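import Pool.Agent.Helper69_SER.Stmts

/-! Modules H1 and THETA, with the chain lemmas u1, u2, u4 and the ideal lemmas for HI. -/

set_option autoImplicit false

namespace SER.H54

open SER

variable {R : Type} [Ring R]

section chain

variable {X : Type} [AddCommGroup X] [Module R X] {Y : Type} [AddCommGroup Y] [Module R Y]

lemma u1 (hX : Chain R X) (f g : X →ₗ[R] Y) (h : Function.Injective (f + g)) :
    Function.Injective f ∨ Function.Injective g := by
  rcases hX (LinearMap.ker f) (LinearMap.ker g) with hle | hle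
  · left
    rw [injective_iff_map_eq_zero]
    intro a ha
    have h1 : g a = 0 := hle (show a ∈ LinearMap.ker f from ha)
    apply h
    rw [map_zero, LinearMap.add_apply, ha, h1, add_zero]
  · right
    rw [injective_iff_map_eq_zero]
    intro a ha
    have h1 : f a = 0 := hle (show a ∈ LinearMap.ker g from ha)
    apply h
    rw [map_zero, LinearMap.add_apply, ha, h1, add_zero]

lemma u2 (hY : Chain R Y) (f g : X →ₗ[R] Y) (h : Function.Surjective (f + g)) :
    Function.Surjective f ∨ Function.Surjective g := by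
  rcases hY (LinearMap.range f) (LinearMap.range g) with hle | hle
  · right
    intro y
    obtain ⟨x, rfl⟩ := h y
    have h1 : f x ∈ LinearMap.range g := hle ⟨x, rfl⟩
    obtain ⟨x', hx'⟩ := h1
    exact ⟨x' + x, by rw [map_add, hx', LinearMap.add_apply]⟩
  · left
    intro y
    obtain ⟨x, rfl⟩ := h y
    have h1 : g x ∈ LinearMap.range f := hle ⟨x, rfl⟩
    obtain ⟨x', hx'⟩ := h1
    exact ⟨x + x', by rw [map_add, hx', LinearMap.add_apply]⟩

lemma neg_inj {f : X →ₗ[R] Y} (h : Function.Injective (-f)) : Function.Injective f := by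
  intro a b hab
  apply h
  rw [LinearMap.neg_apply, LinearMap.neg_apply, hab]

lemma neg_surj {f : X →ₗ[R] Y} (h : Function.Surjective (-f)) : Function.Surjective f := by
  intro y
  obtain ⟨x, hx⟩ := h (-y)
  refine ⟨x, ?_⟩
  rw [LinearMap.neg_apply] at hx
  exact neg_injective hx

/-- if f is mono and g is not, f + g is mono -/
lemma add_inj (hX : Chain R X) (f g : X →ₗ[R] Y) (hf : Function.Injective f)
    (hg : ¬ Function.Injective g) : Function.Injective (f + g) := by
  have h : Function.Injective ((f + g) + (-g)) := by rwa [add_neg_cancel_right]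
  rcases u1 hX _ _ h with h1 | h1
  · exact h1
  · exact absurd (neg_inj h1) hg

/-- if g is epi and f is not, f + g is epi -/
lemma add_surj (hY : Chain R Y) (f g : X →ₗ[R] Y) (hf : ¬ Function.Surjective f)
    (hg : Function.Surjective g) : Function.Surjective (f + g) := by
  have h : Function.Surjective ((f + g) + (-f)) := by rwa [add_neg_cancel_comm]
  rcases u2 hY _ _ h with h1 | h1
  · exact h1
  · exact absurd (neg_surj h1) hf

lemma u4 (hX : Chain R X) (hY : Chain R Y) (f g : X →ₗ[R] Y) (hf : Function.Injective f)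
    (hf' : ¬ Function.Surjective f) (hg : Function.Surjective g) (hg' : ¬ Function.Injective g) :
    Function.Bijective (f + g) :=
  ⟨add_inj hX f g hf hg', add_surj hY f g hf' hg⟩

end chain

section ideal

variable {N : Type} [AddCommGroup N] [Module R N]
variable {X : Type} [AddCommGroup X] [Module R X] {Y : Type} [AddCommGroup Y] [Module R Y]
variable {Z : Type} [AddCommGroup Z] [Module R Z]

lemma HI_single (α : X →ₗ[R] N) (β : N →ₗ[R] Y) : β ∘ₗ α ∈ HI R N X Y :=
  AddSubgroup.subset_closure ⟨α, β, rfl⟩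

lemma HI_left (g : Y →ₗ[R] Z) {f : X →ₗ[R] Y} (hf : f ∈ HI R N X Y) : g ∘ₗ f ∈ HI R N X Z := by
  unfold HI at hf
  induction hf using AddSubgroup.closure_induction with
  | mem f hf =>
    obtain ⟨α, β, rfl⟩ := hf
    rw [← LinearMap.comp_assoc]
    exact HI_single α (g ∘ₗ β)
  | zero => rw [LinearMap.comp_zero]; exact (HI R N X Z).zero_mem
  | add x y _ _ hx hy => rw [LinearMap.comp_add]; exact (HI R N X Z).add_mem hx hy
  | neg x _ hx => rw [LinearMap.comp_neg]; exact (HI R N X Z).neg_mem hx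

lemma HI_right (g : X →ₗ[R] Y) {f : Y →ₗ[R] Z} (hf : f ∈ HI R N Y Z) : f ∘ₗ g ∈ HI R N X Z := by
  unfold HI at hf
  induction hf using AddSubgroup.closure_induction with
  | mem f hf =>
    obtain ⟨α, β, rfl⟩ := hf
    rw [LinearMap.comp_assoc]
    exact HI_single (α ∘ₗ g) β
  | zero => rw [LinearMap.zero_comp]; exact (HI R N X Z).zero_mem
  | add x y _ _ hx hy => rw [LinearMap.add_comp]; exact (HI R N X Z).add_mem hx hy
  | neg x _ hx => rw [LinearMap.neg_comp]; exact (HI R N X Z).neg_mem hx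

lemma HI_inj (hX : Uni R X) {f : X →ₗ[R] Y} (hf : f ∈ HI R N X Y) (h : Function.Injective f) :
    ∃ (α : X →ₗ[R] N) (β : N →ₗ[R] Y), Function.Injective (β ∘ₗ α) := by
  unfold HI at hf
  induction hf using AddSubgroup.closure_induction with
  | mem f hf =>
    obtain ⟨α, β, rfl⟩ := hf
    exact ⟨α, β, h⟩
  | zero =>
    obtain ⟨⟨a, b, hab⟩, _⟩ := hX
    exact absurd (h (by simp : (0 : X →ₗ[R] Y) a = (0 : X →ₗ[R] Y) b)) hab
  | add x y _ _ hx hy =>
    rcases u1 hX.2 _ _ h with h1 | h1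
    · exact hx h1
    · exact hy h1
  | neg x _ hx => exact hx (neg_inj h)

lemma HI_surj (hY : Uni R Y) {f : X →ₗ[R] Y} (hf : f ∈ HI R N X Y) (h : Function.Surjective f) :
    ∃ (α : X →ₗ[R] N) (β : N →ₗ[R] Y), Function.Surjective (β ∘ₗ α) := by
  unfold HI at hf
  induction hf using AddSubgroup.closure_induction with
  | mem f hf =>
    obtain ⟨α, β, rfl⟩ := hf
    exact ⟨α, β, h⟩
  | zero =>
    obtain ⟨⟨a, b, hab⟩, _⟩ := hY
    obtain ⟨a', ha'⟩ := h a
    obtain ⟨b', hb'⟩ := h b
    rw [LinearMap.zero_apply] at ha' hb'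
    exact absurd (ha'.symm.trans hb') hab
  | add x y _ _ hx hy =>
    rcases u2 hY.2 _ _ h with h1 | h1
    · exact hx h1
    · exact hy h1
  | neg x _ hx => exact hx (neg_surj h)

/-- the pair lemma -/
lemma pair (hN : NoUni R N) (hX : Uni R X) (α : X →ₗ[R] N) (β δ : N →ₗ[R] X)
    (h1 : Function.Injective (β ∘ₗ α)) (h2 : Function.Surjective (δ ∘ₗ α)) : False := by
  by_cases h3 : Function.Surjective (β ∘ₗ α)
  · exact hN X hX α β ⟨h1, h3⟩
  by_cases h4 : Function.Injective (δ ∘ₗ α)
  · exact hN X hX α δ ⟨h4, h2⟩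
  · have := u4 hX.2 hX.2 _ _ h1 h3 h2 h4
    rw [← LinearMap.add_comp] at this
    exact hN X hX α (β + δ) this

end ideal

theorem h1 : H1Stmt := by
  intro R _ N _ _ hN W _ _ hW f hf g hg hfi hgs
  obtain ⟨α, β, h1⟩ := HI_inj hW hf hfi
  obtain ⟨γ, δ, h2⟩ := HI_surj hW hg hgs
  by_cases h3 : Function.Surjective (δ ∘ₗ α)
  · exact pair hN hW α β δ h1 h3
  by_cases h4 : Function.Injective (β ∘ₗ γ)
  · exact pair hN hW γ β δ h4 h2
  · have h5 := add_inj hW.2 _ _ h1 h4
    have h6 := add_surj hW.2 _ _ h3 h2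
    rw [← LinearMap.comp_add] at h5 h6
    exact pair hN hW (α + γ) β δ h5 h6

theorem theta : ThetaStmt := by
  intro R _ N _ _ hN V _ _ hV hZ θ hθ hI
  by_cases hinj : Function.Injective θ
  · obtain ⟨e, he⟩ : ∃ e : V ≃ₗ[R] V, (e : V →ₗ[R] V) = θ :=
      ⟨LinearEquiv.ofBijective θ ⟨hinj, hθ⟩, LinearMap.ext fun x => rfl⟩
    have h1 : LinearMap.id - θ = (e.symm : V →ₗ[R] V) ∘ₗ (θ - θ ∘ₗ θ) := by
      ext v
      simp only [LinearMap.sub_apply, LinearMap.comp_apply, LinearMap.id_apply, ← he,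
        LinearEquiv.coe_coe, map_sub, LinearEquiv.symm_apply_apply]
    rw [h1]
    exact HI_left _ hI
  · obtain ⟨f, hfI, hfinj⟩ := hZ
    have hfs := h1 R N hN V hV f hfI f hfI hfinj
    have hbij := u4 hV.2 hV.2 f θ hfinj hfs hθ hinj
    obtain ⟨e, he⟩ : ∃ e : V ≃ₗ[R] V, (e : V →ₗ[R] V) = f + θ :=
      ⟨LinearEquiv.ofBijective (f + θ) hbij, LinearMap.ext fun x => rfl⟩
    have h2 : LinearMap.id - θ
        = ((LinearMap.id - θ) ∘ₗ f + (θ - θ ∘ₗ θ)) ∘ₗ (e.symm : V →ₗ[R] V) := by
      have h3 : (LinearMap.id - θ) ∘ₗ f + (θ - θ ∘ₗ θ) = (LinearMap.id - θ) ∘ₗ (e : V →ₗ[R] V) := by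
        rw [he]
        ext v
        simp only [LinearMap.sub_apply, LinearMap.comp_apply, LinearMap.id_apply,
          LinearMap.add_apply, map_add]
      rw [h3, LinearMap.comp_assoc]
      ext v
      simp
    rw [h2]
    exact HI_right _ ((HI R N V V).add_mem (HI_left _ hfI) hI)

end SER.H54

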